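import Pool.Agent.H18.GGT.M96

/-!
# The Green–Griffiths–Lang conjecture for varieties with globally generated logarithmic symmetric differentials

Let `X ⊆ ℙ^N` be an irreducible closed subvariety of dimension `n ≥ 1`, singular or not, let `D` be the union of the hyperplane sections `{x i = 0}`, `i ∈ B`, of `X` (`B` may be empty), and
let `U = X \ D`.  Suppose that for some `m ≥ 1` there are logarithmic symmetric differentials of degree `m` which generate the forms of degree `m` on all logarithmic tangent spaces of
`(X, D)`.  For a smooth projective variety `Y` and hyperplane sections with simple normal crossings this means that `S^m Ω_Y (log D)` is generated by its global sections, and then it is true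
for all closed subvarieties of `Y` which are not contained in `D`.

Then the four properties of the Green–Griffiths–Lang conjecture are equivalent for `U`, and for every quasi-projective variety `V` of dimension `n` such that `V` and `U` virtually dominate
each other.  If `U` is of log general type, then all quasi-projective varieties of dimension `n` which virtually dominate `U` have the four properties; otherwise the nonconstant entire curves
of order at most two are Zariski dense in `U`.

Proof.  (1) `ξ ↦ (θ_k (ξ))_k` is a finite map on the logarithmic tangent spaces.  A disc or an entire curve in `U` is rescaled; the logarithmic symmetric differentials are constant along
the limits, which are arcs: entire solutions of the differential equation `θ_k (f') = c_k`.  The tangent vectors of the arcs form an algebraic set, and the arcs depend holomorphically on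
them.  Suppose that the arcs are dense in `U`; one finds an invariant family of arcs whose field is a finite extension of the function field of `X`.  If `D` is empty, a pluricanonical form
with values in `O (-1)`, evaluated along a family of arcs, is an entire function which tends to `0`; near the singular points of `X` it is bounded by a power of the distance to them, which is
bounded below along the arcs.  If `D` is not empty, the arcs have order one, so the coordinates of the arcs satisfy linear differential equations whose coefficients are constant on the
arcs; the exponents grade a finite extension of the function field, and `U` is dominated by a family of images of `ℂ*`.  Both are impossible if `U` is of log general type: so all arcs lie in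
`{R = 0}`, and the discs which are not in `{R = 0}` extend.  (2) If `U` is not of log general type, then the logarithmic pluricanonical forms which are determinants of the `θ_k` have
quotients in a field of smaller transcendence degree; from the directions in which this field is constant one gets, at the points of a dense set, nonzero tangent vectors which satisfy the
equations of the arcs to all orders.  These are the initial vectors of arcs, which are entire curves in `U` of order at most two.
-/

set_option autoImplicit false

open MvPolynomial
open Pool.Agent.H62.FC (Homog)
open Pool.Agent.H17LG.Variety (FunField)

namespace Pool.Agent.Results.MP_64ff02_ag.GloballyGenerated

open Pool.Agent.GL (LogSec)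
open Pool.Agent.GBL (LogGenerated)
open Pool.Agent.GTL

/-- **Main theorem.**  `P` gives a projective variety `X` of dimension `n + 1` which is not contained in the hyperplanes `x i = 0`, `i ∈ B`, and `θ` are logarithmic symmetric differentials of
degree `m` with poles on these hyperplanes. -/
theorem result {N n : ℕ} (P : Ideal (MvPolynomial (Fin (N + 1)) ℂ)) [P.IsPrime] (hP : Homog P)
    (hdim : ∃ z : Fin (n + 1) → FunField P, IsTranscendenceBasis ℂ z) (B : Finset (Fin (N + 1))) (hB : ∀ i ∈ B, X i ∉ P)
    {J m : ℕ} (hm : 1 ≤ m) (θ : Fin J → LogSec P B m) (hθ : LogGenerated θ) : Conclusion P (bdy B) (n + 1) :=
  conclusion_gen hP hdim hB hm hθ

end Pool.Agent.Results.MP_64ff02_ag.GloballyGenerated
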