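import Pool.Agent.H43.TL2.M207

/-!
# The Green–Griffiths–Lang conjecture for affine surfaces which carry a logarithmic symmetric differential

Let `X ⊆ ℙ^N` be a smooth irreducible closed surface and `D = {H = 0}` a divisor with simple normal crossings on it, `U = X ∖ D` of log general type.
Suppose that `K_X + D` is ample outside affine lines in `U`, and that the entire curves in a component of `D` which do not meet the other components are
constant; by adjunction and Nakamaye's theorem the first condition follows from the second one.  Let `θ ≠ 0` be an algebraic symmetric differential on `U`
with at most logarithmic poles along `D`; its residues are arbitrary, there need not be any units on `U`, and `U` may contain affine lines.  Then `U`, all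
quasi-projective surfaces which dominate `U`, and all quasi-projective surfaces of log general type which virtually dominate `U` have the properties of the
Green–Griffiths–Lang conjecture, and the Kobayashi metric of `U` is bounded below by a power of a form.

Proof.  (A) The entire curves of order two on which `θ` vanishes lie in one curve: this is McQuillan's theorem for the foliation which `θ` defines on a
covering of the logarithmic surface, with its proof (derivatives of the lifts in a tower of blow-ups, the tautological inequality, reduction of
singularities, the estimate at the reduced singular points).  `θ` vanishes on the affine lines, so there are only finitely many of them.

(B) It suffices to consider the entire curves of order two, thus those on which `θ` is a constant `≠ 0`.  Let `g` be the metric which the sections `Ω a` of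
`m (K_X + D) - D - j H` give along the curves; a point `z` is good for the curve `F` if `F z` is not near the curve `T` of the zeros of `g` (`D`, the curves
of (A) and the common zeros of the `Ω a`).

(0) Let `d` be the distance of `z` to the good points. If `F z` is not near `D`, then `d` is bounded. If not, `z` is a well: near `z`, at the scale `exp (-c
d)`, `F` is close to an affine line `φ`. Off the wells `F` is near `D`; the limits of rescalings extend over the wells to curves in `D`, and one which meets
a crossing is constant, since the local equations of `D` have poles, but no zeros, in the wells (up to multiplicity). So off the wells `F` stays near the end
of `φ` on a disc of radius `c d` about `z`, and on the disc of radius `(1 - ε) d` if this end is a crossing. If `φ` ends at a point of one component only,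
the residue of `θ` there is `0`, since `θ` vanishes on `φ`, and by the maximum principle there is a point of the first disc where the speed of `F` tends to
`0` and its logarithmic speed is bounded, so `θ (F')` tends to `0`: a contradiction. At a crossing the logarithms of the distances to the two components are
harmonic with logarithmic poles in the wells, and the ratio of the two multiplicities is the same for all wells near `z` (compare the potentials at the
nearest two wells with different ratios). If the residue polynomial is not a power of a linear form, Cauchy's formula on a circle about `z` gives a
contradiction. If it is, a linear combination `λ` of the two logarithms is harmonic on the disc of radius `(1 - ε) d` with an almost constant gradient, the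
good point next to `z` lies in the direction in which `λ` is constant, and the harmonic measure of the circles which are tangent there gives a contradiction.

(1) Where `d` is large, the curve is near `D`, at distance about `exp (-d)`, and almost static: limits of rescalings are entire curves in `D`.  There the
residues give algebraic equations with constant coefficients for the derivatives of the logarithms of the distances to the components of `D`.  (2) The limits
of these functions under `z ↦ z / R` are linear on the two sides of a line (Liouville's theorem, from the open mapping theorem), so the good points are near
a line at all large scales; by iteration they are near one fixed line.  (3) The variation fields of such curves are multiples of `F'`, since `Ω a (F', V)` is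
too small on the two sides of the line.  So the compact dynamical system of the curves is expansive in the direction of the line, and an asymptotic pair
would be too close: there is a periodic curve, which is algebraic.  (4) Replace `T` by a larger curve.  Its good points are still dense along the line, so the
curves which it does not contain form a compact family, which has a periodic member if it is not empty: all curves are algebraic, and lie in one curve by
compactness.
-/

set_option autoImplicit false

open MvPolynomial

noncomputable section

namespace Pool.Agent.Results.MP_64ff02_ag.LogSymmetricDifferentials

open Pool.Agent.SR3.T

/-- **Main theorem.**  `P` gives the smooth surface `X`, `D = {H = 0}` is the boundary, with the components `{E i l = 0 for all l}`, `θ` is the logarithmic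
symmetric differential. -/
theorem result {N : ℕ} (P : Ideal (MvPolynomial (Fin (N + 1)) ℂ)) [P.IsPrime] (hP : Homog P) (hdim : HasDim P 2) (hsmooth : Smooth P 2)
    -- the boundary
    {h : ℕ} (H : MvPolynomial (Fin (N + 1)) ℂ) (hH : H.IsHomogeneous h) (h1 : 1 ≤ h) (hHP : H ∉ P) {k M : ℕ}
    (E : Fin k → Fin (M + 1) → MvPolynomial (Fin (N + 1)) ℂ) (c b : Fin k → ℕ) (hE : ∀ i l, (E i l).IsHomogeneous (c i)) (hsnc : Snc P H E b)
    (hbdy : NoBdyCurve P E)
    -- the open part
    (hgt : LogGT P (fun _ : Fin 1 => H) 2) {mΩ jΩ r : ℕ} (Ω : Fin r → V N → V N → V N → ℂ)
    (Q : Fin r → MvPolynomial (Fin (N + 1)) ℂ) (hample : LogAmple P H mΩ jΩ Ω Q)
    -- the symmetric differential
    {m : ℕ} (hm : 1 ≤ m) (θ : SymDiff (CU P H) m) (hlog : HasLogPoles E c θ) (halg : IsAlg θ)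
    (hne : ∃ x ∈ CU P H, ∃ v, Tan (CU P H) x v ∧ θ.toFun x v ≠ 0) :
    Hyperbolic P (fun _ : Fin 1 => H) :=
  main_ne P hP hdim hsmooth H hH h1 hHP E c b hE hsnc hbdy hgt Ω Q hample hm θ hlog halg hne

end Pool.Agent.Results.MP_64ff02_ag.LogSymmetricDifferentials
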