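import Pool.Agent.H43.TL2.M133

/-!
# Pseudo Brody hyperbolic surfaces and differential equations of order one

Let `X ⊆ ℙ^N` be a smooth irreducible closed surface, `g` a regular map from `X` to `ℙ^k`, and let `U`, the inverse image of `ℂ^k`, be nonempty and of log general
type (for example `U = X`, or `U = X - {H = 0}` for a form `H`; in general `U` is proper over an affine variety).  `A` is the set of the nonconstant holomorphic maps
`f : ℂ → U` with `T_f(r) = O(r²)`.  The following are equivalent:
* all curves in `A` satisfy one algebraic differential equation of order at most one, `E (F, F ∧ F') = 0` for all lifts `F` of the curves, with a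
  polynomial `E` which is not identically zero on the tangent vectors of the affine cone of `X`;
* all curves in `A` lie in one algebraic curve;
* `U` is strongly of log general type, and every curve `f` in `A` satisfies, together with all the curves `f (c z)`, its own equation of this kind;
* `U` is pseudo Brody hyperbolic;
* `U` is pseudo Picard hyperbolic;
* `U` is pseudo Kobayashi hyperbolic;
* the four properties of the Green–Griffiths–Lang conjecture hold for `U`, with the Zariski closure of the union of the curves in `A` as the exceptional set;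
* they hold for `U` and for all quasi-projective surfaces which dominate or virtually dominate `U`, and the Kobayashi metric of `U` is bounded below by a
  power of `|Q|`, for some form `Q` which is not `0` on `U` (`Hyperbolic`).
-/

open MvPolynomial
open Pool.Agent.H17 (PN VanishesAt PseudoBrodyHyperbolic PseudoPicardHyperbolic)
open Pool.Agent.SR2.T (Homog HasDim Smooth LogGT Var Loc GGL Hyperbolic)
open Pool.Agent.MQL.PB.T (Eqn Nontrivial Satisfies IsCurve PseudoKobayashi StronglyLogGT Exc)

noncomputable section

namespace Pool.Agent.Results.MP_64ff02_ag.PseudoBrody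

/-- `U = Loc P G` is the inverse image of `ℂ^k` under a regular map from `X` to `ℙ^k`, which is given near every point of `X` by one of the vectors
`(F m 0 : … : F m k)` of forms, where `F m 0 = G m`.  So `U` is proper over an affine variety. -/
def ProperOverAffine {N s : ℕ} (P : Ideal (MvPolynomial (Fin (N + 1)) ℂ)) (G : Fin s → MvPolynomial (Fin (N + 1)) ℂ) : Prop :=
  ∃ (k : ℕ) (F : Fin s → Fin (k + 1) → MvPolynomial (Fin (N + 1)) ℂ) (e : Fin s → ℕ), (∀ m j, (F m j).IsHomogeneous (e m)) ∧ (∀ m, F m 0 = G m) ∧
    (∀ m n j, F m j * G n - F n j * G m ∈ P) ∧ ∀ x ∈ Var P, ∃ m j, ¬ VanishesAt (F m j) x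

/-- **Main theorem.** -/
theorem result {N s : ℕ} (P : Ideal (MvPolynomial (Fin (N + 1)) ℂ)) [P.IsPrime] (hP : Homog P) (hdim : HasDim P 2) (hsmooth : Smooth P 2)
    (G : Fin s → MvPolynomial (Fin (N + 1)) ℂ) (hG : ∃ i, G i ∉ P) (hproper : ProperOverAffine P G) (hgt : LogGT P G 2) :
    List.TFAE [
      ∃ E : Eqn N, Nontrivial P E ∧ ∀ f, IsCurve (Loc P G) f → Satisfies E f,
      ∃ (R : MvPolynomial (Fin (N + 1)) ℂ) (d : ℕ), R.IsHomogeneous d ∧ R ∉ P ∧ ∀ f, IsCurve (Loc P G) f → ∀ z, VanishesAt R (f z),
      StronglyLogGT P G ∧ ∀ f, IsCurve (Loc P G) f → ∃ E : Eqn N, Nontrivial P E ∧ ∀ c : ℂ, c ≠ 0 → Satisfies E fun z => f (c * z),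
      PseudoBrodyHyperbolic (Loc P G),
      PseudoPicardHyperbolic (Loc P G),
      PseudoKobayashi (Loc P G),
      GGL P G (Exc (Loc P G)),
      Hyperbolic P G] :=
  Pool.Agent.MQL.PB.tfae_proper hP hdim hsmooth hG hproper hgt

end Pool.Agent.Results.MP_64ff02_ag.PseudoBrody
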