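import Pool.Agent.H94.G6.M181

/-!
# The Green–Griffiths–Lang conjecture for surfaces of general type which carry a symmetric differential

Let `X ⊆ ℙ^N` be a smooth irreducible closed surface of general type with a section `Ω` of `m K_X - j H`, `j ≥ 1`, whose zeros lie in a curve `D₀` as
in `NegSurf`.  If `K_X` is ample and `H` is a multiple of `K_X`, the curve `D₀` is empty and `Ω` has no zeros.  If `X` is minimal, let `Z` be an
effective divisor whose support `D₀` is the union of the `(-2)`-curves, with negative degree on each of them, and `H = m K_X - N Z` very ample, `m` large
with respect to `N Z`; then `Ω` is the section with the divisor `N Z`.

Suppose that `X` has a nonzero symmetric differential of positive degree (for instance, that its irregularity is positive).  Then `X`, all quasi-projective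
surfaces which dominate `X`, and all quasi-projective surfaces of log general type which virtually dominate `X` have the properties of the
Green–Griffiths–Lang conjecture, and the Kobayashi metric of `X` is bounded below by a power of a form.

More generally, let `A` be a null class: the entire curves tangent to finitely many holomorphic symmetric differentials, or in the fibres of a
holomorphic map to a complex torus, or null for a continuous pseudo-length of nonpositive curvature.  The same conclusion holds if `A` is small: its
nonconstant members with a characteristic function `O (r ^ 2)` lie in one curve `{R = 0}` of `X` or are tangent to one symmetric differential with values
in a power of the hyperplane bundle which is not `0` on a dense set.  (The differential `R (x_i dx_j - x_j dx_i)` vanishes on the curves in `{R = 0}`, and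
a product `θ₁ θ₂` on the curves which are tangent to `θ₁` or `θ₂`; so finite unions of small classes are small.)

Proof.  (1) Let `g` be the metric along curves which a section of `m K_X - H` gives on a blow-up of `X`.  The curves of order two have constant length
for the pseudo-length, say `1` (those of length `0` lie in `{R = 0}`).  Rescaling with `g` bounds `g (f')` on these curves, since limits of rescalings
are null.  The curvature of `g` gives the compactness of the family, where `g` is not small, and a good point of a curve (where `g` is not small) in
every disc of some fixed radius.  It remains to exclude bubbles at a point `x` of a limit `H`, a curve of length `1`.  The direction of `H` at `x` is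
not in the secant cone of the rational curves, which are null.  With a metric `U` whose curve `T` contains the rational curves, but touches the
direction of `H` only at `x`, the Taylor polynomials of the curves at the zero of a linear form, rescaled once, satisfy `|y|^a |y'| ≤ C |P|^b`, `y` the
quotient of the two coordinates: this is impossible.  At the points of `D₀` one takes `T = D₀` for the bubbles of small degree, and the pseudo-length
vanishes at the crossing points of `(-2)`-curves.  So `|f'|` is bounded near the good points, thus everywhere: the curves have bounded distortion.  Such
curves are finitely many up to affine changes of the variable, and each of them lies in an algebraic curve.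

(2) The curves which are tangent to a symmetric differential `θ` (McQuillan's theorem for webs).  Outside a curve the zeros of `θ` are a union of
regular foliations.  A blow-up makes this curve a divisor with normal crossings; near it the sheets of the web are separated by the monomial charts
`(s, t) ↦ (s^a t^b, s^c t^d)`, and every tangent curve `f` has a single-valued lift to one of finitely many such charts, whose energy is bounded by the
one of `f`.  In the charts there are foliations with isolated singularities.  Let `T` be the characteristic function of `f`.  The degree of `f` with
respect to the tangent bundles of these foliations is `o (T)` by the lemma on the logarithmic derivative, applied at the singular points.  The Bott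
connection is bounded along `f` outside the singular points.  There the foliation is resolved by finitely many point blow-ups (Seidenberg's theorem),
and at the reduced singularities, saddle-nodes included, the connection is the sum of the logarithmic derivatives of the equations of the separatrices,
up to a bounded form; with cut-offs, the estimate of the length of the circles by the area, and one form of degree `d` with contact of order `n`, `d / n`
small, with the separatrices which are not algebraic, the degree of `f` with respect to the normal bundles is at least `- ε T`.  As `K_X` is big, `f` is
contained in a fixed curve: the zeros of a section of `m K_X - H`, the curve of (2), the algebraic separatrices and the zeros of the form.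
-/

open MvPolynomial
open Pool.Agent.H17 (PN)
open Pool.Agent.H62.FC (Homog)
open Pool.Agent.H17LG.Variety (FunField)
open Pool.Agent.H36.BP (EN)
open Pool.Agent.AD (NullClass)
open Pool.Agent.AD.NC (IsSmooth IsOfLogGeneralType)
open Pool.Agent.SY (IsHyperbolicSurface)
open Pool.Agent.SG2 (NegSurf)
open Pool.Agent.MQ3 (SmallClass)

noncomputable section

namespace Pool.Agent.Results.MP_64ff02_ag.SymmetricDifferentials

/-- **Main theorem.**  `P` gives a smooth projective surface `X` of general type, with a section `Ω` of `m K_X - j H` whose zeros lie in a curve of
`(-2)`-curves or are empty; `A` is a small null class, for instance the class of the entire curves which are tangent to a symmetric differential `θ`,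
which is not `0` on a dense set (`NullClass.differentials`, and `θ.toW` in `SmallClass`). -/
theorem result {N : ℕ} (P : Ideal (MvPolynomial (Fin (N + 1)) ℂ)) [P.IsPrime] (hP : Homog P)
    (hdim : ∃ z : Fin 2 → FunField P, IsTranscendenceBasis ℂ z) (hsmooth : IsSmooth P 2)
    (hgt : IsOfLogGeneralType P (Fin.elim0 : Fin 0 → MvPolynomial (Fin (N + 1)) ℂ) 2)
    (m j e μ : ℕ) (Ω : EN N → EN N → EN N → ℂ) (κ : Type) (Q : κ → MvPolynomial (Fin (N + 1)) ℂ) (hX : NegSurf P m j Ω Q e μ)
    (A : Set (ℂ → PN N)) (hA : NullClass P A) (hs : SmallClass P A) : IsHyperbolicSurface P :=
  Pool.Agent.MQ3.main_small hP hdim hsmooth hgt hX A hA hs

end Pool.Agent.Results.MP_64ff02_ag.SymmetricDifferentials
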